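import Mathlib
import Pool.Agent.H361.AM.Mix
import Pool.Agent.H361.AM.Stm

set_option autoImplicit false

/-!
# The isomorphism problem and the mixed Whitehead problem

There is one primitive recursive construction `P`, the same for all groups, which turns a finite
presentation together with a list of tuples of words into a finite presentation, such that the
groups of `P (p, U)` and `P (q, V)` are isomorphic exactly when some isomorphism of the groups of `p`
and `q` maps the tuples of `U` to conjugates of the tuples of `V`. The group of `P (p, U)` is built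
from the group of `p` by direct products with `ℤ/5`, free products with `ℤ` and `ℤ/4` and
amalgamated products with the modular group along infinite cyclic subgroups. So for all classes of
groups closed under these operations, for instance the hierarchically hyperbolic groups, a solution
of the isomorphism problem is the same as a uniform solution of the mixed Whitehead problem, and it
gives uniform solutions of the word problem and of the conjugacy problem for tuples.
-/

namespace Pool.Agent.Results.MP_32d917_al.MixedWhitehead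

open Pool.Agent.Q223.IS Pool.Agent.H361.Stm
open Pool.Agent.H361.AM hiding Pres

/-! ### Isomorphisms -/

theorem coprod_iso (A B : Type) [Group A] [Group B] : Nonempty (Monoid.Coprod A B ≃* FPr A B) := by
  let F : Monoid.Coprod A B →* FPr A B := Monoid.Coprod.lift ia ib
  let F' : FPr A B →* Monoid.Coprod A B := fpl Monoid.Coprod.inl Monoid.Coprod.inr
  refine ⟨MonoidHom.toMulEquiv F F' ?_ ?_⟩
  · apply Monoid.Coprod.hom_ext
    · ext a; simp [F, F']
    · ext a; simp [F, F']
  · apply fp_ext
    · intro a; simp [F, F']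
    · intro a; simp [F, F']

theorem modular_iso : ∃ e : Modular ≃* H23, e parab = z23 := by
  let F : Monoid.Coprod (Multiplicative (ZMod 2)) (Multiplicative (ZMod 3)) →* H23 :=
    Monoid.Coprod.lift ia ib
  let F' : H23 →* Monoid.Coprod (Multiplicative (ZMod 2)) (Multiplicative (ZMod 3)) :=
    fpl Monoid.Coprod.inl Monoid.Coprod.inr
  let e : Monoid.Coprod (Multiplicative (ZMod 2)) (Multiplicative (ZMod 3)) ≃* H23 :=
    MonoidHom.toMulEquiv F F' (by
      apply Monoid.Coprod.hom_ext
      · ext a; simp [F, F']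
      · ext a; simp [F, F']) (by
      apply fp_ext
      · intro a; simp [F, F']
      · intro a; simp [F, F'])
  refine ⟨e, ?_⟩
  change F (Monoid.Coprod.inl (Multiplicative.ofAdd 1) *
    Monoid.Coprod.inr (Multiplicative.ofAdd 1)) = z23
  simp only [F, map_mul, Monoid.Coprod.lift_apply_inl, Monoid.Coprod.lift_apply_inr]
  rfl

/-- The relator of the amalgam. -/
abbrev rel (G : Type) [Group G] (s : G) : Monoid.Coprod G Modular :=
  Monoid.Coprod.inl s * (Monoid.Coprod.inr parab)⁻¹

theorem amalgam_iso (G : Type) [Group G] (s : G) : Nonempty (Amalgam G s ≃* Am G s) := by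
  obtain ⟨e, he⟩ := modular_iso
  let F0 : Monoid.Coprod G Modular →* Am G s :=
    Monoid.Coprod.lift (ik s) ((ih s).comp e.toMonoidHom)
  have hl : ∀ g, F0 (Monoid.Coprod.inl g) = ik s g := fun g => Monoid.Coprod.lift_apply_inl _ _ _
  have hr : ∀ g, F0 (Monoid.Coprod.inr g) = ih s (e g) := fun g =>
    Monoid.Coprod.lift_apply_inr _ _ _
  have hk : Subgroup.normalClosure {rel G s} ≤ F0.ker := by
    apply Subgroup.normalClosure_le_normal
    intro x hx
    rw [Set.mem_singleton_iff] at hx
    subst hx
    change F0 (rel G s) = 1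
    rw [rel, map_mul, map_inv, hl, hr, he, ik_s, mul_inv_cancel]
  let F : Amalgam G s →* Am G s := QuotientGroup.lift _ F0 (fun x hx => hk hx)
  have hFm : ∀ x, F (QuotientGroup.mk' _ x) = F0 x := fun x => QuotientGroup.lift_mk' _ _ x
  have hrel : (QuotientGroup.mk' (Subgroup.normalClosure {rel G s})) (Monoid.Coprod.inl s) =
      (QuotientGroup.mk' (Subgroup.normalClosure {rel G s})) (Monoid.Coprod.inr parab) := by
    have h1 : (QuotientGroup.mk' (Subgroup.normalClosure {rel G s})) (rel G s) = 1 :=
      (QuotientGroup.eq_one_iff _).mpr (Subgroup.subset_normalClosure rfl)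
    have h2 : (QuotientGroup.mk' (Subgroup.normalClosure {rel G s})) (rel G s) =
      (QuotientGroup.mk' (Subgroup.normalClosure {rel G s})) (Monoid.Coprod.inl s) *
      ((QuotientGroup.mk' (Subgroup.normalClosure {rel G s})) (Monoid.Coprod.inr parab))⁻¹ := by
      rw [← map_inv, ← map_mul]
    rw [h2, mul_inv_eq_one] at h1
    exact h1
  let F' : Am G s →* Amalgam G s := aml s ((QuotientGroup.mk' _).comp Monoid.Coprod.inl)
    ((QuotientGroup.mk' _).comp (Monoid.Coprod.inr.comp e.symm.toMonoidHom)) (by
      change QuotientGroup.mk' _ (Monoid.Coprod.inl s) =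
        QuotientGroup.mk' _ (Monoid.Coprod.inr (e.symm z23))
      rw [← he, MulEquiv.symm_apply_apply]
      exact hrel)
  have hF1 : ∀ g, F' (ik s g) = QuotientGroup.mk' _ (Monoid.Coprod.inl g) := fun g =>
    aml_ik _ _ _ _
  have hF2 : ∀ g, F' (ih s g) = QuotientGroup.mk' _ (Monoid.Coprod.inr (e.symm g)) := fun g =>
    aml_ih _ _ _ _
  refine ⟨MonoidHom.toMulEquiv F F' ?_ ?_⟩
  · apply QuotientGroup.monoidHom_ext
    apply Monoid.Coprod.hom_ext
    · apply MonoidHom.ext
      intro a
      simp only [MonoidHom.comp_apply, MonoidHom.id_apply]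
      rw [hFm, hl, hF1]
    · apply MonoidHom.ext
      intro a
      simp only [MonoidHom.comp_apply, MonoidHom.id_apply]
      rw [hFm, hr, hF2, MulEquiv.symm_apply_apply]
  · apply am_ext
    · intro a
      rw [MonoidHom.comp_apply, hF1, hFm, hl]
      rfl
    · intro a
      rw [MonoidHom.comp_apply, hF2, hFm, hr, MulEquiv.apply_symm_apply]
      rfl

/-! ### Closure -/

section Closure

variable {𝒢 : (G : Type) → [Group G] → Prop} (h𝒢 : Closed 𝒢)

include h𝒢

theorem cl_T5 {p : Pres} (hp : 𝒢 (PG p)) : 𝒢 (PG (T5 p)) := by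
  obtain ⟨e, _⟩ := iso_T5 p
  exact h𝒢.iso _ _ ⟨e.symm⟩ (h𝒢.prod _ hp)

theorem cl_F4 {p : Pres} (hp : 𝒢 (PG p)) : 𝒢 (PG (F4 p)) := by
  obtain ⟨e, _⟩ := iso_F4 p
  obtain ⟨e'⟩ := coprod_iso (PG p) (Multiplicative (ZMod 4))
  exact h𝒢.iso _ _ ⟨e'.trans e.symm⟩ (h𝒢.free4 _ hp)

theorem cl_FZ {p : Pres} (hp : 𝒢 (PG p)) (r : ℕ) : 𝒢 (PG (FZ p r)) := by
  induction r with
  | zero =>
    obtain ⟨e, _⟩ := iso_FZ p 0
    refine h𝒢.iso _ _ ⟨MulEquiv.trans ?_ e.symm⟩ hp
    refine MonoidHom.toMulEquiv (ia : PG p →* FPr (PG p) (FreeGroup (Fin 0))) ra ?_ ?_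
    · ext a; simp
    · apply fp_ext
      · intro a; simp
      · intro b
        have : b = 1 := by
          have : Subsingleton (FreeGroup (Fin 0)) := inferInstance
          exact Subsingleton.elim _ _
        rw [this]; simp
  | succ r ihr =>
    have hcode : FZ p (r + 1) = FZ (FZ p r) 1 := by
      change ((p.1 + (r + 1), p.2.map (cut p.1) ++ []) : ℕ × List Wd) =
        (p.1 + r + 1, (p.2.map (cut p.1) ++ []).map (cut (p.1 + r)) ++ [])
      rw [List.append_nil, List.append_nil, List.map_map]
      refine Prod.ext (by simp; omega) ?_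
      apply List.map_congr_left
      intro w _
      change cut p.1 w = cut (p.1 + r) (cut p.1 w)
      rw [cut_of_lt ((lt_cut p.1 w).mono (by omega))]
    rw [hcode]
    obtain ⟨e, _⟩ := iso_FZ (FZ p r) 1
    obtain ⟨e'⟩ := coprod_iso (PG (FZ p r)) (Multiplicative ℤ)
    refine h𝒢.iso _ _ ⟨(e'.trans ?_).trans e.symm⟩ (h𝒢.freeZ _ ihr)
    let g : FreeGroup (Fin 1) ≃* Multiplicative ℤ := FreeGroup.mulEquivIntOfUnique
    refine MonoidHom.toMulEquiv (fpl ia (ib.comp g.symm.toMonoidHom))
      (fpl ia (ib.comp g.toMonoidHom)) ?_ ?_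
    · apply fp_ext
      · intro a; simp
      · intro b; simp
    · apply fp_ext
      · intro a; simp
      · intro b; simp

theorem cl_Lay {p : Pres} {w : Wd} (hw : Lt p.1 w) (hi : InfOrd (ev (gen p) w))
    (hp : 𝒢 (PG p)) : 𝒢 (PG (Lay p w)) := by
  have h1 := cl_T5 h𝒢 hp
  obtain ⟨e1, he1, _⟩ := iso_T5 p
  have h2 : InfOrd (ev (gen (T5 p)) w) := by
    apply InfOrd.of_map e1.toMonoidHom
    change InfOrd (e1 _)
    rw [T5_ev p e1 he1 hw]
    exact hi.prod
  obtain ⟨e, _⟩ := iso_GD (T5 p) w
  obtain ⟨e'⟩ := amalgam_iso (PG (T5 p)) (ev (gen (T5 p)) w)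
  exact h𝒢.iso _ _ ⟨e'.trans e.symm⟩ (h𝒢.amalgam _ _ h2 h1)

theorem cl_Tow {ws : List Wd} : ∀ {p : Pres}, (∀ w ∈ ws, Lt p.1 w ∧ InfOrd (ev (gen p) w)) →
    𝒢 (PG p) → 𝒢 (PG (Tow p ws)) := by
  induction ws with
  | nil => intro p _ hp; exact hp
  | cons w ws ihw =>
    intro p h hp
    obtain ⟨h1, h2⟩ := h w List.mem_cons_self
    apply ihw (p := Lay p w)
    · intro v hv
      obtain ⟨h3, h4⟩ := h v (List.mem_cons_of_mem _ hv)
      exact ⟨h3.mono (show p.1 ≤ p.1 + 1 + 1 by omega), lay_inf h1 h2 h3 h4⟩
    · exact cl_Lay h𝒢 h1 h2 hp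

theorem cl_EX {p : Pres} (us : List Wd) (hp : 𝒢 (PG p)) : 𝒢 (PG (EX p us)) :=
  cl_Tow h𝒢 (fun w hw => ⟨mks_lt _ _ w hw, mks_inf _ _ w hw⟩) (cl_F4 h𝒢 (cl_T5 h𝒢 hp))

theorem cl_MXr {p : Pres} (r : ℕ) (U : List (List Wd)) (hp : 𝒢 (PG p)) :
    𝒢 (PG (MXr p r U)) := cl_EX h𝒢 _ (cl_FZ h𝒢 (cl_T5 h𝒢 hp) r)

end Closure

/-! ### The reduction -/

theorem forall₂_getD {α β : Type} {R : List α → List β → Prop} {U : List (List α)}
    {V : List (List β)} (hl : U.length = V.length) :
    List.Forall₂ R U V ↔ ∀ i < U.length, R (U.getD i []) (V.getD i []) := by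
  induction U generalizing V with
  | nil =>
    have : V = [] := List.length_eq_zero_iff.mp hl.symm
    subst this
    simp
  | cons A U ihU =>
    rcases V with _ | ⟨B, V⟩
    · simp at hl
    · rw [List.forall₂_cons, ihU (by simpa using hl)]
      constructor
      · rintro ⟨h1, h2⟩ i hi
        rcases i with _ | i
        · simpa using h1
        · simpa using h2 i (by simpa using hi)
      · intro h
        refine ⟨by simpa using h 0 (by simp), fun i hi => ?_⟩
        simpa using h (i + 1) (by simpa using hi)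

/-- The construction. -/
def PP (x : Pres × List (List Wd)) : Pres := MXr x.1 x.2.length x.2

theorem PP_pr : Primrec PP := MXr_pr Primrec.fst (Primrec.list_length.comp Primrec.snd) Primrec.snd

theorem PP_iff (p q : Pres) (U V : List (List Wd)) (h : U.map List.length = V.map List.length) :
    Nonempty (PG (PP (p, U)) ≃* PG (PP (q, V))) ↔ Mixed p U q V := by
  have hl : U.length = V.length := by simpa using congrArg List.length h
  have hs : ∀ i < U.length, (U.getD i []).length = (V.getD i []).length := by
    intro i hi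
    have h1 : (U.map List.length).getD i 0 = (V.map List.length).getD i 0 := by rw [h]
    have hi' : i < V.length := hl ▸ hi
    simpa [List.getD_eq_getElem?_getD, hi, hi'] using h1
  have h2 : PP (q, V) = MXr q U.length V := by rw [PP, hl]
  rw [h2, PP, MXr_iff p q U.length U V hs, Mixed]
  constructor
  · rintro ⟨e, he⟩
    exact ⟨e, (forall₂_getD hl).mpr he⟩
  · rintro ⟨e, he⟩
    exact ⟨e, (forall₂_getD hl).mp he⟩

theorem mixed_shape {p q : Pres} {U V : List (List Wd)} (h : Mixed p U q V) :
    U.map List.length = V.map List.length := by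
  obtain ⟨e, he⟩ := h
  induction he with
  | nil => rfl
  | cons h1 _ ih1 =>
    obtain ⟨_, h1⟩ := h1
    rw [List.map_cons, List.map_cons, ih1, h1.length_eq]

/-! ### Algorithms -/

theorem mixed_of_iso {𝒢 : (G : Type) → [Group G] → Prop} (h𝒢 : Closed 𝒢) (h : IsoSolvable 𝒢) :
    MixedSolvable 𝒢 := by
  obtain ⟨f, hf, hf2⟩ := h
  let c : (Pres × List (List Wd)) × (Pres × List (List Wd)) → Bool := fun x =>
    decide (x.1.2.map List.length = x.2.2.map List.length)
  have hc : Computable c := by
    apply Primrec.to_comp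
    have h1 : Primrec fun x : (Pres × List (List Wd)) × (Pres × List (List Wd)) =>
        x.1.2.map List.length :=
      Primrec.list_map (Primrec.snd.comp Primrec.fst) (Primrec.list_length.comp Primrec.snd).to₂
    have h2 : Primrec fun x : (Pres × List (List Wd)) × (Pres × List (List Wd)) =>
        x.2.2.map List.length :=
      Primrec.list_map (Primrec.snd.comp Primrec.snd) (Primrec.list_length.comp Primrec.snd).to₂
    exact (Primrec.eq.comp h1 h2).decide
  have hP : Computable fun x : (Pres × List (List Wd)) × (Pres × List (List Wd)) =>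
      (PP x.1, PP x.2) :=
    (Computable.pair (PP_pr.to_comp.comp Computable.fst) (PP_pr.to_comp.comp Computable.snd))
  refine ⟨fun x => cond (c x) (f (PP x.1, PP x.2)) (Part.some false),
    Partrec.cond hc (hf.comp hP) (Computable.const false).partrec, ?_⟩
  intro p U q V hp hq
  by_cases hs : U.map List.length = V.map List.length
  · have h1 : c ((p, U), (q, V)) = true := by simp [c, hs]
    obtain ⟨b, hb, hb2⟩ := hf2 (PP (p, U)) (PP (q, V)) (cl_MXr h𝒢 _ _ hp) (cl_MXr h𝒢 _ _ hq)
    refine ⟨b, ?_, hb2.trans (PP_iff p q U V hs)⟩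
    simp only [h1, cond_true]
    exact hb
  · have h1 : c ((p, U), (q, V)) = false := by simp [c, hs]
    refine ⟨false, ?_, ?_⟩
    · simp only [h1, cond_false]
      exact Part.mem_some _
    · constructor
      · intro h; cases h
      · intro h; exact absurd (mixed_shape h) hs

theorem iso_of_mixed {𝒢 : (G : Type) → [Group G] → Prop} (h : MixedSolvable 𝒢) :
    IsoSolvable 𝒢 := by
  obtain ⟨f, hf, hf2⟩ := h
  refine ⟨fun x => f ((x.1, []), (x.2, [])), hf.comp (Computable.pair
    (Computable.pair Computable.fst (Computable.const []))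
    (Computable.pair Computable.snd (Computable.const []))), fun p q hp hq => ?_⟩
  obtain ⟨b, hb, hb2⟩ := hf2 p [] q [] hp hq
  refine ⟨b, hb, hb2.trans ?_⟩
  constructor
  · rintro ⟨e, _⟩; exact ⟨e⟩
  · rintro ⟨e⟩; exact ⟨e, List.Forall₂.nil⟩

theorem word_of_mixed {𝒢 : (G : Type) → [Group G] → Prop} (h : MixedSolvable 𝒢) :
    WordSolvable 𝒢 := by
  obtain ⟨f, hf, hf2⟩ := h
  refine ⟨fun x => f ((x.1, [[x.2]]), (x.1, [[[]]])), ?_, fun p w hp => ?_⟩
  · apply hf.comp
    refine Computable.pair (Computable.pair Computable.fst ?_)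
      (Computable.pair Computable.fst (Computable.const _))
    have h1 : Primrec fun x : Pres × Wd => ([[x.2]] : List (List Wd)) :=
      Primrec.list_cons.comp (Primrec.list_cons.comp Primrec.snd (Primrec.const []))
        (Primrec.const [])
    exact h1.to_comp
  · obtain ⟨b, hb, hb2⟩ := hf2 p [[w]] p [[[]]] hp hp
    refine ⟨b, hb, hb2.trans ?_⟩
    constructor
    · rintro ⟨e, he⟩
      rcases he with _ | ⟨⟨h, h1⟩, _⟩
      rcases h1 with _ | ⟨h2, _⟩
      rw [ev_nil] at h2
      have h3 : e (ev (gen p) w) = 1 := by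
        have : e (ev (gen p) w) = h⁻¹ * (h * e (ev (gen p) w) * h⁻¹) * h := by group
        rw [this, h2]; group
      exact (MulEquiv.map_eq_one_iff e).mp h3
    · intro hw
      refine ⟨MulEquiv.refl _, List.Forall₂.cons ⟨1, List.Forall₂.cons ?_ List.Forall₂.nil⟩
        List.Forall₂.nil⟩
      change 1 * ev (gen p) w * 1⁻¹ = _
      rw [hw, ev_nil]; simp

theorem conj_of_mixed {𝒢 : (G : Type) → [Group G] → Prop} (h : MixedSolvable 𝒢) :
    ConjSolvable 𝒢 := by
  obtain ⟨f, hf, hf2⟩ := h
  let X : Pres → List Wd := fun p => (List.range p.1).map (fun i => [(i, true)])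
  refine ⟨fun x => f ((x.1, [X x.1, x.2.1]), (x.1, [X x.1, x.2.2])), ?_, fun p us vs hp => ?_⟩
  · apply hf.comp
    have hX : Primrec X := Primrec.list_map (Primrec.list_range.comp Primrec.fst)
      (lt_pr Primrec.snd).to₂
    have h1 : ∀ g : Pres × List Wd × List Wd → List Wd, Primrec g →
        Primrec fun x : Pres × List Wd × List Wd => ([X x.1, g x] : List (List Wd)) :=
      fun g hg => Primrec.list_cons.comp (hX.comp Primrec.fst) (Primrec.list_cons.comp hg
        (Primrec.const []))
    exact (Primrec.pair (Primrec.pair Primrec.fst (h1 _ (Primrec.fst.comp Primrec.snd)))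
      (Primrec.pair Primrec.fst (h1 _ (Primrec.snd.comp Primrec.snd)))).to_comp
  · obtain ⟨b, hb, hb2⟩ := hf2 p [X p, us] p [X p, vs] hp hp
    refine ⟨b, hb, hb2.trans ?_⟩
    constructor
    · rintro ⟨e, he⟩
      rcases he with _ | ⟨⟨h0, h1⟩, he⟩
      rcases he with _ | ⟨⟨h2, h3⟩, _⟩
      rw [List.forall₂_map_left_iff, List.forall₂_map_right_iff, List.forall₂_same] at h1
      have h4 : (MulAut.conj h0).toMonoidHom.comp e.toMonoidHom = MonoidHom.id _ := by
        apply PG_ext
        intro i
        change h0 * e (gen p i) * h0⁻¹ = gen p i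
        by_cases hi : i < p.1
        · have := h1 i (List.mem_range.mpr hi)
          rwa [ev_true] at this
        · rw [gen_big p (not_lt.mp hi), map_one]; group
      have h5 : ∀ x, h0 * e x * h0⁻¹ = x := fun x => DFunLike.congr_fun h4 x
      refine ⟨h2 * h0⁻¹, h3.imp (fun u v huv => ?_)⟩
      rw [← huv]
      conv_lhs => rw [← h5 (ev (gen p) u)]
      group
    · rintro ⟨h, hh⟩
      refine ⟨MulEquiv.refl _, List.Forall₂.cons ⟨1, ?_⟩ (List.Forall₂.cons ⟨h, hh⟩
        List.Forall₂.nil)⟩
      rw [List.forall₂_same]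
      intro x _
      simp

/-- There is a primitive recursive construction `P` such that for all finite presentations `p`, `q`
and all lists `U`, `V` of tuples of words, with the same lengths, the groups of `P (p, U)` and
`P (q, V)` are isomorphic if and only if some isomorphism between the groups of `p` and `q` maps each
tuple of `U` to a conjugate of the corresponding tuple of `V`. If `𝒢` is a class of groups which is
closed under isomorphism, direct products with `ℤ/5`, free products with `ℤ/4` and with `ℤ`, and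
amalgamated products with the modular group along elements of infinite order (such as the class of
the hierarchically hyperbolic groups), then `P` maps presentations of groups of `𝒢` to presentations
of groups of `𝒢`. Hence the isomorphism problem is solvable in `𝒢` if and only if the uniform mixed
Whitehead problem is, and then the word problem and the conjugacy problem for tuples are solvable
uniformly in `𝒢`. -/
theorem result :
    ∃ P : Pres × List (List Wd) → Pres, Primrec P ∧
      (∀ (p q : Pres) (U V : List (List Wd)), U.map List.length = V.map List.length →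
        (Nonempty (PG (P (p, U)) ≃* PG (P (q, V))) ↔ Mixed p U q V)) ∧
      ∀ 𝒢 : (G : Type) → [Group G] → Prop, Closed 𝒢 →
        (∀ (p : Pres) (U : List (List Wd)), 𝒢 (PG p) → 𝒢 (PG (P (p, U)))) ∧
        (IsoSolvable 𝒢 ↔ MixedSolvable 𝒢) ∧
        (IsoSolvable 𝒢 → WordSolvable 𝒢 ∧ ConjSolvable 𝒢) :=
  ⟨PP, PP_pr, PP_iff, fun _ h𝒢 => ⟨fun _ _ hp => cl_MXr h𝒢 _ _ hp,
    ⟨mixed_of_iso h𝒢, iso_of_mixed⟩,
    fun h => ⟨word_of_mixed (mixed_of_iso h𝒢 h), conj_of_mixed (mixed_of_iso h𝒢 h)⟩⟩⟩

end Pool.Agent.Results.MP_32d917_al.MixedWhitehead
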